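import Pool.Agent.W117.GH.Stm

set_option autoImplicit false

open scoped ContDiff ComplexConjugate
open MeasureTheory Filter Topology Set

noncomputable section

namespace Pool.Agent.W628.GH

open Pool.Agent.W117.GH

/-- Wirtinger derivative of a real function -/
def WD (f : ℂ → ℝ) (z : ℂ) (c : ℂ) : Prop :=
  ∃ L : ℂ →L[ℝ] ℝ, HasFDerivAt f L z ∧
    (((1 / 2 * L 1 : ℝ) : ℂ) - Complex.I * ((1 / 2 * L Complex.I : ℝ) : ℂ)) = c

lemma WD.pd {f : ℂ → ℝ} {z c : ℂ} (h : WD f z c) :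
    (((1 / 2 * pd 0 f z : ℝ) : ℂ) - Complex.I * ((1 / 2 * pd 1 f z : ℝ) : ℂ)) = c := by
  obtain ⟨L, hL, hc⟩ := h
  rw [← hc]
  simp only [Pool.Agent.W117.GH.pd, hL.fderiv, dir, Matrix.cons_val_zero, Matrix.cons_val_one]

lemma WD.congr {f g : ℂ → ℝ} {z c : ℂ} (h : WD f z c) (hg : g =ᶠ[𝓝 z] f) : WD g z c := by
  obtain ⟨L, hL, hc⟩ := h
  exact ⟨L, hL.congr_of_eventuallyEq hg, hc⟩

lemma WD.normSq {g : ℂ → ℂ} {z g' : ℂ} (h : HasDerivAt g g' z) :
    WD (fun z => Complex.normSq (g z)) z (conj (g z) * g') := by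
  have h1 : HasFDerivAt g ((ContinuousLinearMap.toSpanSingleton ℂ g').restrictScalars ℝ) z :=
    (h.hasFDerivAt).restrictScalars ℝ
  have h2 : HasFDerivAt (fun z => (g z).re) (Complex.reCLM.comp
      ((ContinuousLinearMap.toSpanSingleton ℂ g').restrictScalars ℝ)) z :=
    Complex.reCLM.hasFDerivAt.comp z h1
  have h3 : HasFDerivAt (fun z => (g z).im) (Complex.imCLM.comp
      ((ContinuousLinearMap.toSpanSingleton ℂ g').restrictScalars ℝ)) z :=
    Complex.imCLM.hasFDerivAt.comp z h1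
  have h4 := (h2.mul h2).add (h3.mul h3)
  refine ⟨_, h4.congr_of_eventuallyEq (Eventually.of_forall fun w => by
    simp [Complex.normSq_apply]), ?_⟩
  apply Complex.ext
  · simp [ContinuousLinearMap.toSpanSingleton]
    ring
  · simp [ContinuousLinearMap.toSpanSingleton]
    ring

lemma WD.comp {f : ℂ → ℝ} {z c : ℂ} {φ : ℝ → ℝ} {φ' : ℝ} (h : WD f z c)
    (hφ : HasDerivAt φ φ' (f z)) : WD (fun z => φ (f z)) z (φ' * c) := by
  obtain ⟨L, hL, hc⟩ := h
  refine ⟨_, hφ.comp_hasFDerivAt z hL, ?_⟩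
  rw [← hc]
  simp
  ring

lemma WD.add {f g : ℂ → ℝ} {z c d : ℂ} (h : WD f z c) (hg : WD g z d) :
    WD (fun z => f z + g z) z (c + d) := by
  obtain ⟨L, hL, hc⟩ := h
  obtain ⟨M, hM, hd⟩ := hg
  refine ⟨_, hL.add hM, ?_⟩
  rw [← hc, ← hd]
  simp
  ring

lemma WD.const_mul {f : ℂ → ℝ} {z c : ℂ} (h : WD f z c) (r : ℝ) :
    WD (fun z => r * f z) z (r * c) := by
  obtain ⟨L, hL, hc⟩ := h
  refine ⟨_, hL.const_mul r, ?_⟩
  rw [← hc]
  simp
  ring

lemma yy_eq (k : ℕ) {z : ℂ} (hz : z ≠ 0) : yy k z = Complex.normSq (1 - (z ^ k)⁻¹) := by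
  have h1 : z ^ k ≠ 0 := pow_ne_zero _ hz
  have h2 : z ^ k - 1 = z ^ k * (1 - (z ^ k)⁻¹) := by
    rw [mul_sub, mul_inv_cancel₀ h1, mul_one]
  unfold yy
  rw [h2, Complex.normSq_mul, map_pow]
  have h3 : Complex.normSq z ^ k ≠ 0 := pow_ne_zero _ (Complex.normSq_pos.mpr hz).ne'
  field_simp

theorem main : PropVA := by
  intro a k m h q hk hm ha hakm hP
  obtain ⟨δ, hδ, hq⟩ := hP.q_smooth
  have hk0 : (0:ℝ) < k := by exact_mod_cast (by omega : 0 < k)
  -- bounds for `q` and `q'` on `[0,4]`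
  have hsub : Icc (0:ℝ) 4 ⊆ Ioi (-δ) := fun x hx => lt_of_lt_of_le (by linarith) hx.1
  have hqc : ContinuousOn q (Icc 0 4) := hq.continuousOn.mono hsub
  have hq'c : ContinuousOn (deriv q) (Icc 0 4) :=
    (hq.continuousOn_deriv_of_isOpen isOpen_Ioi (by simp)).mono hsub
  obtain ⟨M0, hM0⟩ := isCompact_Icc.exists_bound_of_continuousOn hqc
  obtain ⟨M1, hM1⟩ := isCompact_Icc.exists_bound_of_continuousOn hq'c
  have hM1' : 0 ≤ M1 := (norm_nonneg _).trans (hM1 0 (by simp))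
  set C1 : ℝ := 2 * (k * m) + 2 * M1 * k with hC1
  have hC1' : 0 ≤ C1 := by positivity
  refine ⟨max (Real.exp (a * M0)) (4 ^ m * Real.exp M0 * C1 ^ 2), ?_⟩
  intro z hz
  have hz0 : z ≠ 0 := by
    rintro rfl
    simp at hz
    linarith
  have hzpos : 0 < ‖z‖ := by linarith
  have hns : 0 < Complex.normSq z := Complex.normSq_pos.mpr hz0
  have hzk : (4:ℝ) ≤ ‖z ^ k‖ := by
    rw [norm_pow]
    calc (4:ℝ) = 2 ^ 2 := by norm_num
      _ ≤ 2 ^ k := pow_le_pow_right₀ (by norm_num) hk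
      _ ≤ ‖z‖ ^ k := pow_le_pow_left₀ (by norm_num) hz k
  have hzk0 : z ^ k ≠ 0 := pow_ne_zero _ hz0
  have hg1 : ‖1 - (z ^ k)⁻¹‖ ≤ 2 := by
    calc ‖1 - (z ^ k)⁻¹‖ ≤ ‖(1:ℂ)‖ + ‖(z ^ k)⁻¹‖ := norm_sub_le _ _
      _ ≤ 1 + 1 := by
        rw [norm_one, norm_inv]
        gcongr
        rw [inv_le_one₀ (by linarith)]
        linarith
      _ = 2 := by norm_num
  have hyy : yy k z = Complex.normSq (1 - (z ^ k)⁻¹) := yy_eq k hz0
  have hyy0 : yy k z ∈ Icc (0:ℝ) 4 := by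
    rw [hyy, Complex.normSq_eq_norm_sq]
    refine ⟨by positivity, ?_⟩
    nlinarith [norm_nonneg (1 - (z ^ k)⁻¹)]
  have hvv : vv k m h q z = -(k * m : ℝ) * Real.log (Complex.normSq z) + q (yy k z) := by
    unfold vv
    rw [if_neg hz0]
  have hlog : Real.log (Complex.normSq z) = 2 * Real.log ‖z‖ := by
    rw [Complex.normSq_eq_norm_sq, Real.log_pow]
    norm_num
  have hlogpos : 0 ≤ Real.log ‖z‖ := Real.log_nonneg (by linarith)
  have hq0 : q (yy k z) ≤ M0 := (le_abs_self _).trans (hM0 _ hyy0)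
  have hrp : ‖z‖ ^ (-(4:ℝ)) = Real.exp (-4 * Real.log ‖z‖) := by
    rw [Real.rpow_def_of_pos hzpos]
    congr 1
    ring
  have hk2 : (2:ℝ) ≤ k := by exact_mod_cast hk
  constructor
  · have h1 : a * vv k m h q z ≤ a * M0 + -4 * Real.log ‖z‖ := by
      rw [hvv, hlog]
      have e : a * (-(k * m : ℝ) * (2 * Real.log ‖z‖) + q (yy k z))
          = a * q (yy k z) + -(a * (k * m)) * (2 * Real.log ‖z‖) := by ring
      rw [e, hakm]
      have := mul_le_mul_of_nonneg_left hq0 ha.le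
      nlinarith
    calc Real.exp (a * vv k m h q z) ≤ Real.exp (a * M0 + -4 * Real.log ‖z‖) :=
          Real.exp_le_exp.mpr h1
      _ = Real.exp (a * M0) * ‖z‖ ^ (-(4:ℝ)) := by rw [Real.exp_add, hrp]
      _ ≤ _ := by
        gcongr
        exact le_max_left _ _
  · -- the Wirtinger derivative of `v`
    have hq' : HasDerivAt q (deriv q (yy k z)) (yy k z) := by
      have h1 : ContDiffAt ℝ ∞ q (yy k z) :=
        (hq _ (hsub hyy0)).contDiffAt (isOpen_Ioi.mem_nhds (hsub hyy0))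
      exact (h1.differentiableAt (by simp)).hasDerivAt
    have hderg : HasDerivAt (fun z : ℂ => 1 - (z ^ k)⁻¹)
        (k * z ^ (k - 1) / (z ^ k) ^ 2) z := by
      have h1 := (hasDerivAt_pow k z).inv hzk0
      have h2 := h1.const_sub 1
      rw [neg_div, neg_neg] at h2
      exact h2
    have hW1 : WD (fun z => Real.log (Complex.normSq z)) z (z⁻¹) := by
      have h1 := WD.normSq (hasDerivAt_id z)
      have h2 := h1.comp (φ := Real.log) (Real.hasDerivAt_log (by simpa using hns.ne'))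
      have e : (((Complex.normSq (id z))⁻¹ : ℝ) : ℂ) * (conj (id z) * 1) = z⁻¹ := by
        simp only [id, mul_one]
        rw [Complex.inv_def]
        push_cast
        ring
      rw [e] at h2
      exact h2
    have hW2 : WD (fun z => q (yy k z)) z ((deriv q (yy k z) : ℝ) *
        (conj (1 - (z ^ k)⁻¹) * (k * z ^ (k - 1) / (z ^ k) ^ 2))) := by
      have h1 := WD.normSq hderg
      have h2 := h1.comp (φ := q) (φ' := deriv q (yy k z)) (by rw [← hyy]; exact hq')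
      refine h2.congr ?_
      filter_upwards [isOpen_ne.mem_nhds hz0] with w hw
      rw [yy_eq k hw]
    have hW : WD (vv k m h q) z (((-(k * m : ℝ) : ℝ) : ℂ) * z⁻¹ + (deriv q (yy k z) : ℝ) *
        (conj (1 - (z ^ k)⁻¹) * (k * z ^ (k - 1) / (z ^ k) ^ 2))) := by
      refine ((hW1.const_mul _).add hW2).congr ?_
      filter_upwards [isOpen_ne.mem_nhds hz0] with w hw
      unfold vv
      rw [if_neg hw]
    rw [hW.pd]
    have hzk1 : z ^ k - 1 ≠ 0 := by
      intro h0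
      have h1 : z ^ k = 1 := by linear_combination h0
      rw [h1, norm_one] at hzk
      linarith
    have hdg : deriv (hh k m) z = hh k m z * ((k * m : ℝ) * z ^ (k - 1) / (z ^ k - 1)) := by
      have h1 : HasDerivAt (fun z : ℂ => (z ^ k - 1) ^ m)
          (m * (z ^ k - 1) ^ (m - 1) * (k * z ^ (k - 1))) z :=
        ((hasDerivAt_pow k z).sub_const 1).pow m
      have h2 : deriv (hh k m) z = m * (z ^ k - 1) ^ (m - 1) * (k * z ^ (k - 1)) := h1.deriv
      rw [h2]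
      unfold hh
      obtain ⟨m, rfl⟩ : ∃ n, m = n + 1 := ⟨m - 1, by omega⟩
      rw [pow_succ]
      simp only [Nat.add_sub_cancel]
      push_cast
      field_simp
    obtain ⟨j, rfl⟩ : ∃ n, k = n + 1 := ⟨k - 1, by omega⟩
    simp only [Nat.add_sub_cancel] at *
    -- factor
    set Q : ℂ := ((j + 1 : ℕ) * m : ℝ) / (z * (z ^ (j + 1) - 1)) +
        (deriv q (yy (j + 1) z) : ℝ) *
        (conj (1 - (z ^ (j + 1))⁻¹) * ((j + 1 : ℕ) * z ^ j / (z ^ (j + 1)) ^ 2)) with hQ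
    have hfac : deriv (hh (j + 1) m) z + hh (j + 1) m z *
        (((-((j + 1 : ℕ) * m : ℝ) : ℝ) : ℂ) * z⁻¹ + (deriv q (yy (j + 1) z) : ℝ) *
        (conj (1 - (z ^ (j + 1))⁻¹) * ((j + 1 : ℕ) * z ^ j / (z ^ (j + 1)) ^ 2)))
        = hh (j + 1) m z * Q := by
      rw [hdg, hQ, ← mul_add]
      congr 1
      have e : ((((j + 1 : ℕ) : ℝ) * m : ℝ) : ℂ) * z ^ j / (z ^ (j + 1) - 1) +
          ((-(((j + 1 : ℕ) : ℝ) * m : ℝ) : ℝ) : ℂ) * z⁻¹
          = ((((j + 1 : ℕ) : ℝ) * m : ℝ) : ℂ) / (z * (z ^ (j + 1) - 1)) := by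
        push_cast
        field_simp
        ring
      rw [← add_assoc, e]
    rw [hfac, Complex.normSq_mul]
    -- first factor
    have hF1 : Real.exp (vv (j + 1) m h q z) * Complex.normSq (hh (j + 1) m z)
        ≤ 4 ^ m * Real.exp M0 := by
      have h1 : Complex.normSq (hh (j + 1) m z) = Complex.normSq (z ^ (j + 1) - 1) ^ m := by
        unfold hh
        rw [map_pow]
      have h2 : Real.exp (vv (j + 1) m h q z)
          = (Complex.normSq z ^ (j + 1))⁻¹ ^ m * Real.exp (q (yy (j + 1) z)) := by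
        rw [hvv, Real.exp_add]
        congr 1
        rw [← inv_pow, ← pow_mul, ← Real.exp_log (inv_pos.mpr hns), ← Real.exp_nat_mul,
          Real.log_inv]
        congr 1
        push_cast
        ring
      have h3 : Real.exp (vv (j + 1) m h q z) * Complex.normSq (hh (j + 1) m z)
          = yy (j + 1) z ^ m * Real.exp (q (yy (j + 1) z)) := by
        rw [h1, h2]
        have : yy (j + 1) z = (Complex.normSq z ^ (j + 1))⁻¹ * Complex.normSq (z ^ (j + 1) - 1) := by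
          unfold yy
          rw [div_eq_mul_inv, mul_comm]
        nth_rewrite 2 [this]
        rw [mul_pow]
        ring
      rw [h3]
      exact mul_le_mul (pow_le_pow_left₀ hyy0.1 hyy0.2 m) (Real.exp_le_exp.mpr hq0)
        (Real.exp_pos _).le (by positivity)
    -- second factor
    have hzj : 0 < ‖z‖ ^ (j + 1) := by positivity
    have hlow : ‖z‖ ^ (j + 1) / 2 ≤ ‖z ^ (j + 1) - 1‖ := by
      have h1 : ‖z ^ (j + 1)‖ - ‖(1:ℂ)‖ ≤ ‖z ^ (j + 1) - 1‖ := norm_sub_norm_le _ _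
      rw [norm_one] at h1
      rw [norm_pow] at h1 hzk
      linarith
    have hQn : ‖Q‖ ≤ C1 / ‖z‖ ^ 2 := by
      have h1 : ‖((((j + 1 : ℕ) : ℝ) * m : ℝ) : ℂ) / (z * (z ^ (j + 1) - 1))‖
          ≤ 2 * (((j + 1 : ℕ) : ℝ) * m) / ‖z‖ ^ 2 := by
        rw [norm_div, norm_mul, Complex.norm_real, Real.norm_of_nonneg (by positivity)]
        rw [div_le_div_iff₀ (by
          have : 0 < ‖z ^ (j + 1) - 1‖ := norm_pos_iff.mpr hzk1
          positivity) (by positivity)]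
        have h2 : ‖z‖ ^ 2 ≤ 2 * (‖z‖ * ‖z ^ (j + 1) - 1‖) := by
          have h3 : ‖z‖ ≤ ‖z‖ ^ (j + 1) := le_self_pow₀ (by linarith) (by omega)
          nlinarith
        have h4 : (0:ℝ) ≤ ((j + 1 : ℕ) : ℝ) * m := by positivity
        nlinarith
      have h2 : ‖((deriv q (yy (j + 1) z) : ℝ) : ℂ) *
        (conj (1 - (z ^ (j + 1))⁻¹) * ((j + 1 : ℕ) * z ^ j / (z ^ (j + 1)) ^ 2))‖
          ≤ 2 * M1 * ((j + 1 : ℕ) : ℝ) / ‖z‖ ^ 2 := by
        rw [norm_mul, norm_mul, Complex.norm_real, RCLike.norm_conj, norm_div, norm_mul, norm_pow,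
          norm_pow, norm_pow, Complex.norm_natCast]
        have h3 : ‖z‖ ^ j / (‖z‖ ^ (j + 1)) ^ 2 ≤ 1 / ‖z‖ ^ 2 := by
          rw [div_le_div_iff₀ (by positivity) (by positivity), one_mul, ← pow_add, ← pow_mul]
          exact pow_le_pow_right₀ (by linarith) (by omega)
        have h4 : ((j + 1 : ℕ) : ℝ) * ‖z‖ ^ j / (‖z‖ ^ (j + 1)) ^ 2
            ≤ ((j + 1 : ℕ) : ℝ) * (1 / ‖z‖ ^ 2) := by
          rw [mul_div_assoc]
          exact mul_le_mul_of_nonneg_left h3 (by positivity)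
        calc ‖deriv q (yy (j + 1) z)‖ * (‖1 - (z ^ (j + 1))⁻¹‖ *
              (((j + 1 : ℕ) : ℝ) * ‖z‖ ^ j / (‖z‖ ^ (j + 1)) ^ 2))
            ≤ M1 * (2 * (((j + 1 : ℕ) : ℝ) * (1 / ‖z‖ ^ 2))) := by
              apply mul_le_mul (hM1 _ hyy0) _ (by positivity) hM1'
              exact mul_le_mul hg1 h4 (by positivity) (by norm_num)
          _ = _ := by ring
      calc ‖Q‖ ≤ _ := norm_add_le _ _
        _ ≤ 2 * (((j + 1 : ℕ) : ℝ) * m) / ‖z‖ ^ 2 + 2 * M1 * ((j + 1 : ℕ) : ℝ) / ‖z‖ ^ 2 :=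
          add_le_add h1 h2
        _ = C1 / ‖z‖ ^ 2 := by rw [hC1]; ring
    have hF2 : Complex.normSq Q ≤ C1 ^ 2 * ‖z‖ ^ (-(4:ℝ)) := by
      rw [Complex.normSq_eq_norm_sq]
      calc ‖Q‖ ^ 2 ≤ (C1 / ‖z‖ ^ 2) ^ 2 := pow_le_pow_left₀ (norm_nonneg _) hQn 2
        _ = C1 ^ 2 * ‖z‖ ^ (-(4:ℝ)) := by
          rw [Real.rpow_neg hzpos.le, div_pow, ← pow_mul]
          norm_num
          rfl
    calc Real.exp (vv (j + 1) m h q z) * (Complex.normSq (hh (j + 1) m z) * Complex.normSq Q)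
        = (Real.exp (vv (j + 1) m h q z) * Complex.normSq (hh (j + 1) m z)) * Complex.normSq Q := by
          ring
      _ ≤ (4 ^ m * Real.exp M0) * (C1 ^ 2 * ‖z‖ ^ (-(4:ℝ))) :=
          mul_le_mul hF1 hF2 (Complex.normSq_nonneg _) (by positivity)
      _ = (4 ^ m * Real.exp M0 * C1 ^ 2) * ‖z‖ ^ (-(4:ℝ)) := by ring
      _ ≤ _ := by
        gcongr
        exact le_max_right _ _

end Pool.Agent.W628.GH
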